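import Pool.Agent.U541.FM.Flat
import Pool.Agent.Y34.HB.Closing
import Pool.Agent.Y73.HB.Par
import Pool.Agent.Y899.HB.Comp
import Pool.Agent.Y155.HB.Slab
import Pool.Agent.Y929.HB.Thick
import Pool.Agent.Y809.HB.Mini
import Pool.Agent.Y220.HB.ROT

/-!
Invariant fields of subsets of a CAT(0) space which give positive mass to the sets at finite distance
from a flat.
-/

set_option autoImplicit false

namespace Pool.Agent.U541.FM

open Set MeasureTheory Metric

/-- Euclidean space -/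
abbrev E (k : ℕ) : Type := EuclideanSpace ℝ (Fin k)

section
variable {X : Type*} [MetricSpace X]

/-- the sets `A` and `B` are at Hausdorff distance at most `n` -/
def CloseTo (n : ℝ) (A B : Set X) : Prop :=
  (∀ x ∈ A, ∃ y ∈ B, dist x y ≤ n) ∧ ∀ y ∈ B, ∃ x ∈ A, dist x y ≤ n

/-- invariant fields of sets of locally finite intensity -/
structure Field (G : Type*) [Group G] [MulAction G X] {Ω : Type*} [MeasurableSpace Ω] [MulAction G Ω]
    (μ : Measure Ω) (F : Ω → Set X) : Prop where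
  preserving : ∀ g : G, MeasurePreserving (fun ω : Ω => g • ω) μ μ
  equivariant : ∀ (g : G) (ω : Ω), F (g • ω) = (fun x => g • x) '' F ω
  finite : ∀ B : Set X, Bornology.IsBounded B → μ {ω | (F ω ∩ B).Nonempty} < ⊤

variable {G : Type*} [Group G] [MulAction G X] [IsIsometricSMul G X]

theorem core {K : Set X} (hK : IsCompact K) (hGK : ∀ x : X, ∃ g : G, g • x ∈ K)
    {Ω : Type*} [MeasurableSpace Ω] [MulAction G Ω] (μ : Measure Ω) (F : Ω → Set X)
    (hF : Field G μ F) {k : ℕ} {f : E k → X} (hf : Isometry f) (n : ℝ)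
    (hm : MeasurableSet {ω | CloseTo n (F ω) (range f)})
    (hpos : 0 < μ {ω | CloseTo n (F ω) (range f)}) :
    ∃ C : ℝ, ∀ a : E k, ∃ g : G, (∀ z, ∃ w, dist (g • f z) (f w) ≤ n + n) ∧
      dist (g • f 0) (f a) ≤ C := by
  classical
  choose κ hκ using fun a : E k => hGK (f a)
  obtain ⟨R, hR⟩ := hK.isBounded.subset_closedBall (f 0)
  set T : E k → Set Ω := fun a => {ω | (κ a)⁻¹ • ω ∈ {ω | CloseTo n (F ω) (range f)}} with hT
  have hTm : ∀ a, MeasurableSet (T a) := fun a => (hF.preserving (κ a)⁻¹).measurable hm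
  have hTμ : ∀ a, μ (T a) = μ {ω | CloseTo n (F ω) (range f)} := fun a =>
    (hF.preserving (κ a)⁻¹).measure_preimage hm.nullMeasurableSet
  have hTD : ∀ a, T a ⊆ {ω | (F ω ∩ Metric.closedBall (f 0) (R + n)).Nonempty} := by
    rintro a ω ⟨-, h2⟩
    obtain ⟨x, hx, hd⟩ := h2 (f a) ⟨a, rfl⟩
    rw [hF.equivariant] at hx
    obtain ⟨y, hy, rfl⟩ := hx
    refine ⟨y, hy, ?_⟩
    rw [Metric.mem_closedBall]
    rw [← dist_smul (κ a), smul_inv_smul] at hd
    have h5 := hR (hκ a)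
    rw [Metric.mem_closedBall] at h5
    have h6 := dist_triangle y (κ a • f a) (f 0)
    linarith
  obtain ⟨P, hP⟩ := finite_packing μ T hTm hpos hTμ hTD (hF.finite _ Metric.isBounded_closedBall)
  obtain ⟨C, hC⟩ := (P.finite_toSet.image fun b : E k => ‖b‖).bddAbove
  refine ⟨C + (R + R), fun a => ?_⟩
  obtain ⟨b, hb, ω, h1, h2⟩ := hP a
  refine ⟨(κ a)⁻¹ * κ b, fun z => ?_, ?_⟩
  · obtain ⟨x, hx, hd⟩ := h2.2 (f z) ⟨z, rfl⟩
    rw [hF.equivariant] at hx
    obtain ⟨y, hy, rfl⟩ := hx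
    obtain ⟨_, ⟨w, rfl⟩, hd2⟩ := h1.1 ((κ a)⁻¹ • y) (by
      rw [hF.equivariant]
      exact ⟨y, hy, rfl⟩)
    refine ⟨w, ?_⟩
    have h3 := dist_triangle (((κ a)⁻¹ * κ b) • f z) ((κ a)⁻¹ • y) (f w)
    have h4 : dist (((κ a)⁻¹ * κ b) • f z) ((κ a)⁻¹ • y) = dist ((κ b)⁻¹ • y) (f z) := by
      rw [mul_smul, dist_smul, dist_comm, ← dist_smul (κ b) ((κ b)⁻¹ • y), smul_inv_smul]
    linarith
  · have h3 : dist (((κ a)⁻¹ * κ b) • f b) (f a) = dist (κ b • f b) (κ a • f a) := by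
      rw [mul_smul, ← dist_smul (κ a), smul_inv_smul]
    have h4 := hR (hκ a)
    have h5 := hR (hκ b)
    rw [Metric.mem_closedBall] at h4 h5
    have h6 := dist_triangle (κ b • f b) (f 0) (κ a • f a)
    rw [dist_comm (f 0)] at h6
    have h7 := dist_triangle (((κ a)⁻¹ * κ b) • f 0) (((κ a)⁻¹ * κ b) • f b) (f a)
    rw [dist_smul, hf.dist_eq, dist_zero_left] at h7
    have h8 : ‖b‖ ≤ C := hC ⟨b, hb, rfl⟩
    linarith

open Pool.Agent.Y34.HB in
/-- maximal flats in CAT(0) spaces -/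
theorem max_flat {X : Type*} [MetricSpace X] {G : Type*} [Group G] [MulAction G X]
    (hG : Geo X G) (k : ℕ) (hk : ∀ f : Pool.Agent.Y34.HB.E (k + 1) → X, ¬ Isometry f)
    {Ω : Type*} [MeasurableSpace Ω] [MulAction G Ω] (μ : Measure Ω) (F : Ω → Set X)
    (hF : Field G μ F) {f : Pool.Agent.Y34.HB.E k → X} (hf : Isometry f) (n : ℝ)
    (hm : MeasurableSet {ω | CloseTo n (F ω) (range f)})
    (hpos : 0 < μ {ω | CloseTo n (F ω) (range f)}) :
    ∃ (φ : Multiplicative (Fin k → ℤ) →* G) (b : Fin k → Pool.Agent.Y34.HB.E k) (r : ℝ),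
      Function.Injective φ ∧ LinearIndependent ℝ b ∧
      ∀ (n : Fin k → ℤ) (z : Pool.Agent.Y34.HB.E k), dist (φ (Multiplicative.ofAdd n) • f z)
        (f (z + ∑ i, n i • b i)) ≤ r := by
  have := hG.proper
  have := hG.isom
  have := hG.disc
  obtain ⟨K, hK, hGK⟩ := hG.cc
  have hpar := Pool.Agent.Y73.HB.t Pool.Agent.Y34.HB.t_conv Pool.Agent.Y34.HB.t_const
  have hhom := Pool.Agent.Y899.HB.t3 hpar Pool.Agent.Y899.HB.t1 Pool.Agent.Y899.HB.t2
  obtain ⟨M0, hM0⟩ := Pool.Agent.Y929.HB.Thick.t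
    (Pool.Agent.Y155.HB.t2 Pool.Agent.Y155.HB.t1) Pool.Agent.Y34.HB.t_lim X G hG k hk
  obtain ⟨C, hC⟩ := core hK hGK μ F hF hf n hm hpos
  obtain ⟨φ, b, h1, h2, h3⟩ := Pool.Agent.Y34.HB.closing hhom Pool.Agent.Y809.HB.mini
    Pool.Agent.Y220.HB.t hG k M0 hM0 f hf C (fun a => by
      obtain ⟨g, hg1, hg2⟩ := hC a
      refine ⟨g, ⟨n + n, fun z => ?_⟩, hg2⟩
      obtain ⟨w, hw⟩ := hg1 z
      exact (infDist_le_dist_of_mem (mem_range_self w)).trans hw)
  exact ⟨φ, b, M0, h1, h2, h3⟩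

open Pool.Agent.Y34.HB Pool.Agent.W620.FL in
/-- flat planes in CAT(0) spaces -/
theorem plane_flat {X : Type*} [MetricSpace X] {G : Type*} [Group G] [MulAction G X]
    (hG : Geo X G)
    {Ω : Type*} [MeasurableSpace Ω] [MulAction G Ω] (μ : Measure Ω) (F : Ω → Set X)
    (hF : Field G μ F) {f : Pool.Agent.Y34.HB.E 2 → X} (hf : Isometry f) (n : ℝ)
    (hm : MeasurableSet {ω | CloseTo n (F ω) (range f)})
    (hpos : 0 < μ {ω | CloseTo n (F ω) (range f)}) :
    ∃ φ : Multiplicative (ℤ × ℤ) →* G, Function.Injective φ := by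
  have := hG.proper
  have := hG.isom
  have := hG.disc
  obtain ⟨K, hK, hGK⟩ := hG.cc
  have hpar := Pool.Agent.Y73.HB.t Pool.Agent.Y34.HB.t_conv Pool.Agent.Y34.HB.t_const
  obtain ⟨C, hC⟩ := core hK hGK μ F hF hf n hm hpos
  set i : ℂ ≃ᵢ E 2 := Complex.orthonormalBasisOneI.repr.toIsometryEquiv with hi
  have hi0 : i 0 = 0 := by
    rw [hi]; exact map_zero Complex.orthonormalBasisOneI.repr
  have hfi : Isometry (f ∘ i) := hf.comp i.isometry
  have hd : ∀ z0 : ℂ, ∃ (h : G) (e : ℂ ≃ᵢ ℂ), Lam (f ∘ i) (n + n) h e ∧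
      ‖e 0 - z0‖ ≤ C + (n + n) := by
    intro z0
    obtain ⟨g, hg1, hg2⟩ := hC (i z0)
    have hnear : Near (fun z => g • f z) f := ⟨n + n, fun z => by
      obtain ⟨w, hw⟩ := hg1 z
      exact (infDist_le_dist_of_mem (mem_range_self w)).trans hw⟩
    obtain ⟨e, h0, he⟩ := hpar X hG.cn 2 _ _ ((isometry_smul X g).comp hf) hf hnear
    simp only [Function.comp_apply] at h0 he
    have hle : infDist (g • f 0) (range f) ≤ n + n := by
      obtain ⟨w, hw⟩ := hg1 0
      exact (infDist_le_dist_of_mem (mem_range_self w)).trans hw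
    have hz : ∀ z, dist (g • f z) (f (e z)) ≤ n + n := by
      intro z
      have h1 := he z z
      rw [dist_self] at h1
      have h2 : dist (g • f z) (f (e z)) ^ 2 = infDist (g • f 0) (range f) ^ 2 := by
        rw [h1]
        ring
      have h3 := (sq_eq_sq₀ dist_nonneg h0).1 h2
      rw [h3]
      exact hle
    refine ⟨g, (i.trans e.toIsometryEquiv).trans i.symm, fun z => ?_, ?_⟩
    · have h1 := hz (i z)
      simpa using h1
    · have h1 := hz 0
      have h2 : dist (f (e 0)) (f (i z0)) ≤ C + (n + n) := by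
        have h3 := dist_triangle (f (e 0)) (g • f 0) (f (i z0))
        rw [dist_comm (f (e 0)) (g • f 0)] at h3
        linarith
      rw [hf.dist_eq] at h2
      have h3 : ((i.trans e.toIsometryEquiv).trans i.symm) 0 = i.symm (e 0) := by
        simp [hi0]
      rw [h3, ← dist_eq_norm, ← i.dist_eq, IsometryEquiv.apply_symm_apply]
      exact h2
  obtain ⟨r, C', hd'⟩ := dense_trans hd
  refine coarse_Z2 hfi (fun ρ => ?_) hd'
  refine (ProperlyDiscontinuousSMul.finite_disjoint_inter_image (Γ := G)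
    (isCompact_singleton (x := (f ∘ i) 0)) (isCompact_closedBall ((f ∘ i) 0) ρ)).subset ?_
  intro g hg
  exact ⟨g • (f ∘ i) 0, ⟨(f ∘ i) 0, rfl, rfl⟩, hg⟩

end

end Pool.Agent.U541.FM
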