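import Pool.Agent.U541.FM.Cat

/-!
The field of the translates of an orbit of a lattice of translations of a flat.
-/

set_option autoImplicit false

namespace Pool.Agent.U541.FM

open Set MeasureTheory Metric

universe u v

theorem decompose {k : ℕ} (b : Fin k → E k) (hb : LinearIndependent ℝ b) (z : E k) :
    ∃ (n : Fin k → ℤ) (z' : E k), z = z' + ∑ i, n i • b i ∧ ‖z'‖ ≤ ∑ i, ‖b i‖ := by
  by_cases hk : k = 0
  · subst hk
    refine ⟨fun _ => 0, z, by simp, ?_⟩
    have : z = 0 := Subsingleton.elim _ _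
    rw [this]
    simp
  have : Nonempty (Fin k) := ⟨⟨0, Nat.pos_of_ne_zero hk⟩⟩
  set B := basisOfLinearIndependentOfCardEqFinrank hb (by simp) with hB
  have hz : ∑ i, B.repr z i • b i = z := by
    have := B.sum_repr z
    simpa [hB] using this
  refine ⟨fun i => ⌊B.repr z i⌋, ∑ i, Int.fract (B.repr z i) • b i, ?_, ?_⟩
  · rw [← Finset.sum_add_distrib]
    conv_lhs => rw [← hz]
    refine Finset.sum_congr rfl fun i _ => ?_
    rw [← Int.cast_smul_eq_zsmul ℝ ⌊B.repr z i⌋ (b i), ← add_smul, Int.fract_add_floor]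
  · refine (norm_sum_le _ _).trans (Finset.sum_le_sum fun i _ => ?_)
    rw [norm_smul, Real.norm_of_nonneg (Int.fract_nonneg _)]
    exact mul_le_of_le_one_left (norm_nonneg _) (Int.fract_lt_one _).le

theorem converse {X : Type u} [MetricSpace X] [ProperSpace X] {G : Type v} [Group G] [MulAction G X]
    [IsIsometricSMul G X] [ProperlyDiscontinuousSMul G X] {k : ℕ} {f : E k → X} (hf : Isometry f)
    (φ : Multiplicative (Fin k → ℤ) →* G) (b : Fin k → E k) (hb : LinearIndependent ℝ b) (r : ℝ)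
    (h : ∀ (n : Fin k → ℤ) (z : E k), dist (φ (Multiplicative.ofAdd n) • f z)
      (f (z + ∑ i, n i • b i)) ≤ r) :
    ∃ (Ω : Type v) (_ : MeasurableSpace Ω) (_ : MulAction G Ω) (μ : Measure Ω) (F : Ω → Set X),
      Field G μ F ∧ MeasurableSet {ω | CloseTo r (F ω) (range f)} ∧
        0 < μ {ω | CloseTo r (F ω) (range f)} := by
  classical
  have hr : 0 ≤ r := dist_nonneg.trans (h 0 0)
  let ms : MeasurableSpace (G ⧸ φ.range) := ⊤
  have hms : ∀ s : Set (G ⧸ φ.range), MeasurableSet s := fun s => trivial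
  set F : G ⧸ φ.range → Set X := fun q => {x | ∃ g : G, (g : G ⧸ φ.range) = q ∧ ∃ z, x = g • f z}
    with hF
  have hclose : CloseTo r (F ((1 : G) : G ⧸ φ.range)) (range f) := by
    constructor
    · rintro x ⟨g, hg, z, rfl⟩
      have hg' : g ∈ φ.range := by
        have := QuotientGroup.eq.1 hg.symm
        simpa using this
      obtain ⟨n, rfl⟩ := hg'
      exact ⟨_, ⟨_, rfl⟩, h (Multiplicative.toAdd n) z⟩
    · rintro _ ⟨z, rfl⟩
      exact ⟨f z, ⟨1, rfl, z, (one_smul G _).symm⟩, by rw [dist_self]; exact hr⟩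
  refine ⟨G ⧸ φ.range, ms, inferInstance, Measure.count, F, ⟨?_, ?_, ?_⟩, hms _, ?_⟩
  · intro g
    refine ⟨fun s _ => hms _, ?_⟩
    ext s hs
    rw [Measure.map_apply (fun s _ => hms _) hs, Measure.count_apply hs,
      Measure.count_apply (hms _), Set.encard_preimage_of_bijective (MulAction.bijective g)]
  · intro g q
    ext x
    constructor
    · rintro ⟨g', hg', z, rfl⟩
      refine ⟨(g⁻¹ * g') • f z, ⟨g⁻¹ * g', ?_, z, rfl⟩, ?_⟩
      · have e : ((g⁻¹ * g' : G) : G ⧸ φ.range) = g⁻¹ • (g' : G ⧸ φ.range) := rfl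
        rw [e, hg', inv_smul_smul]
      · simp only [mul_smul, smul_inv_smul]
    · rintro ⟨_, ⟨g', hg', z, rfl⟩, rfl⟩
      refine ⟨g * g', ?_, z, ?_⟩
      · have e : ((g * g' : G) : G ⧸ φ.range) = g • (g' : G ⧸ φ.range) := rfl
        rw [e, hg']
      · simp only [mul_smul]
  · intro B hB
    obtain ⟨R, hR⟩ := hB.subset_closedBall (f 0)
    have hfin : {g : G | dist (g • f 0) (f 0) ≤ (∑ i, ‖b i‖) + r + R}.Finite := by
      refine (ProperlyDiscontinuousSMul.finite_disjoint_inter_image (Γ := G)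
        (isCompact_singleton (x := f 0))
        (isCompact_closedBall (f 0) ((∑ i, ‖b i‖) + r + R))).subset ?_
      intro g hg
      exact ⟨g • f 0, ⟨f 0, rfl, rfl⟩, hg⟩
    have hfin2 : {q : G ⧸ φ.range | (F q ∩ B).Nonempty}.Finite := by
      refine (hfin.image fun g : G => (g : G ⧸ φ.range)).subset ?_
      rintro q ⟨_, ⟨g, rfl, z, rfl⟩, hB⟩
      obtain ⟨n, z', hz, hz'⟩ := decompose b hb z
      refine ⟨g * φ (Multiplicative.ofAdd n), ?_, ?_⟩
      · change dist ((g * φ (Multiplicative.ofAdd n)) • f 0) (f 0) ≤ _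
        have h1 := hR hB
        rw [mem_closedBall] at h1
        have h2 := h n z'
        rw [← hz, ← dist_smul g] at h2
        have h3 : dist ((g * φ (Multiplicative.ofAdd n)) • f 0)
            ((g * φ (Multiplicative.ofAdd n)) • f z') = ‖z'‖ := by
          rw [dist_smul, hf.dist_eq, dist_zero_left]
        have h4 := dist_triangle ((g * φ (Multiplicative.ofAdd n)) • f 0)
          ((g * φ (Multiplicative.ofAdd n)) • f z') (f 0)
        have h5 := dist_triangle ((g * φ (Multiplicative.ofAdd n)) • f z') (g • f z) (f 0)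
        rw [mul_smul g _ (f z')] at h5 h3 h4
        linarith
      · refine QuotientGroup.eq.2 ?_
        have e : (g * φ (Multiplicative.ofAdd n))⁻¹ * g = (φ (Multiplicative.ofAdd n))⁻¹ := by group
        rw [e]
        exact φ.range.inv_mem ⟨_, rfl⟩
    exact Measure.count_apply_lt_top'  (hms _) |>.2 hfin2
  · refine lt_of_lt_of_le ?_ (measure_mono (singleton_subset_iff.2 hclose))
    rw [Measure.count_singleton' (hms _)]
    exact one_pos

end Pool.Agent.U541.FM
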