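import Mathlib
import Pool.Agent.W620.FL.Coarse

/-!
Invariant measures on flats which give positive mass to a class of parallel flats.
-/

set_option autoImplicit false

namespace Pool.Agent.U541.FM

open Set MeasureTheory Pool.Agent.W620.FL

/-- sets of equal positive measure in a set of finite measure: a finite maximal disjoint family -/
theorem finite_packing {Ω ι : Type*} [MeasurableSpace Ω] (μ : Measure Ω) (T : ι → Set Ω)
    (hTm : ∀ a, MeasurableSet (T a)) {c : ENNReal} (hc : 0 < c) (hTμ : ∀ a, μ (T a) = c)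
    {D : Set Ω} (hTD : ∀ a, T a ⊆ D) (hD : μ D < ⊤) :
    ∃ P : Finset ι, ∀ a, ∃ b ∈ P, (T a ∩ T b).Nonempty := by
  classical
  by_contra hcon
  push Not at hcon
  have hn : ∀ n : ℕ, ∃ F : Finset ι, F.card = n ∧ (F : Set ι).PairwiseDisjoint T := by
    intro n
    induction n with
    | zero => exact ⟨∅, rfl, by simp⟩
    | succ n ih =>
      obtain ⟨F, hF1, hF3⟩ := ih
      obtain ⟨a, hab⟩ := hcon F
      have haF : a ∉ F := by
        intro h
        have h1 := hab a h
        rw [inter_self] at h1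
        have h2 := hTμ a
        rw [h1, measure_empty] at h2
        exact hc.ne h2
      refine ⟨insert a F, by rw [Finset.card_insert_of_notMem haF, hF1], ?_⟩
      rw [Finset.coe_insert]
      refine hF3.insert fun b hb _ => ?_
      exact disjoint_iff_inter_eq_empty.2 (hab b hb)
  have hle : ∀ n : ℕ, (n : ENNReal) * c ≤ μ D := by
    intro n
    obtain ⟨F, hF1, hF3⟩ := hn n
    have h1 : μ (⋃ a ∈ F, T a) = ∑ a ∈ F, μ (T a) :=
      measure_biUnion_finset hF3 fun a _ => hTm a
    have h2 : ∑ a ∈ F, μ (T a) = n * c := by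
      rw [Finset.sum_congr rfl fun a _ => hTμ a, Finset.sum_const, hF1, nsmul_eq_mul]
    rw [← h2, ← h1]
    exact measure_mono (iUnion₂_subset fun a _ => hTD a)
  obtain ⟨n, hn⟩ := ENNReal.exists_nat_mul_gt hc.ne' hD.ne
  exact absurd (hle n) (not_le.2 hn)

section
variable {X : Type*} [MetricSpace X]

/-- the sets `A` and `B` are flat planes with parametrisations at distance at most `n` -/
def Par (n : ℝ) (A B : Set X) : Prop :=
  ∃ p q : ℂ → X, Isometry p ∧ Isometry q ∧ range p = A ∧ range q = B ∧ ∀ z, dist (p z) (q z) ≤ n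

theorem same_range {p q : ℂ → X} (hp : Isometry p) (hq : Isometry q) (h : range p = range q) :
    ∃ e : ℂ ≃ᵢ ℂ, ∀ z, p z = q (e z) := by
  have h1 : ∀ z, ∃ w, q w = p z := fun z => by
    have : p z ∈ range q := by rw [← h]; exact ⟨z, rfl⟩
    exact this
  choose e he using h1
  have hi : Isometry e := by
    refine Isometry.of_dist_eq fun z w => ?_
    rw [← hq.dist_eq, he, he, hp.dist_eq]
  obtain ⟨e', he'⟩ := toEquiv hi
  exact ⟨e', fun z => by rw [he', he]⟩

variable {G : Type*} [Group G] [MulAction G X] [IsIsometricSMul G X]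

theorem Z2_of_measure [ProperSpace X] [ProperlyDiscontinuousSMul G X]
    {K : Set X} (hK : IsCompact K) (hGK : ∀ x : X, ∃ g : G, g • x ∈ K)
    {Ω : Type*} [MeasurableSpace Ω] [MulAction G Ω] (μ : Measure Ω)
    (hμ : ∀ g : G, MeasurePreserving (fun ω : Ω => g • ω) μ μ) (F : Ω → Set X)
    (hF : ∀ (g : G) (ω : Ω), F (g • ω) = (fun x => g • x) '' F ω)
    (hfin : ∀ B : Set X, Bornology.IsBounded B → μ {ω | (F ω ∩ B).Nonempty} < ⊤)
    {f : ℂ → X} (hf : Isometry f) (n : ℝ) (hm : MeasurableSet {ω | Par n (F ω) (range f)})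
    (hpos : 0 < μ {ω | Par n (F ω) (range f)}) :
    ∃ φ : Multiplicative (ℤ × ℤ) →* G, Function.Injective φ := by
  classical
  choose k hk using fun a : ℂ => hGK (f a)
  obtain ⟨R, hR⟩ := hK.isBounded.subset_closedBall (f 0)
  set T : ℂ → Set Ω := fun a => {ω | (k a)⁻¹ • ω ∈ {ω | Par n (F ω) (range f)}} with hT
  have hTm : ∀ a, MeasurableSet (T a) := fun a => (hμ (k a)⁻¹).measurable hm
  have hTμ : ∀ a, μ (T a) = μ {ω | Par n (F ω) (range f)} := fun a =>
    (hμ (k a)⁻¹).measure_preimage hm.nullMeasurableSet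
  have hTD : ∀ a, T a ⊆ {ω | (F ω ∩ Metric.closedBall (f 0) (R + n)).Nonempty} := by
    rintro a ω ⟨p, q, hp, hq, hpF, hqf, hd⟩
    have h1 : f a ∈ range q := by rw [hqf]; exact ⟨a, rfl⟩
    obtain ⟨z, hz⟩ := h1
    have h2 : p z ∈ F ((k a)⁻¹ • ω) := by rw [← hpF]; exact ⟨z, rfl⟩
    rw [hF] at h2
    obtain ⟨x, hx, hxz⟩ := h2
    refine ⟨x, hx, ?_⟩
    have h3 : x = k a • p z := by
      rw [← hxz]
      simp
    rw [Metric.mem_closedBall, h3]
    have h4 := hd z
    rw [hz, ← dist_smul (k a)] at h4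
    have h5 := hR (hk a)
    rw [Metric.mem_closedBall] at h5
    have h6 := dist_triangle (k a • p z) (k a • f a) (f 0)
    linarith
  obtain ⟨P, hP⟩ := finite_packing μ T hTm hpos hTμ hTD (hfin _ Metric.isBounded_closedBall)
  obtain ⟨C, hC⟩ := (P.finite_toSet.image fun b : ℂ => ‖b‖).bddAbove
  have hd : ∀ z0 : ℂ, ∃ (h : G) (e : ℂ ≃ᵢ ℂ), Lam f (n + n) h e ∧
      ‖e 0 - z0‖ ≤ C + ((R + R) + (n + n)) := by
    intro a
    obtain ⟨b, hb, ω, ⟨p1, q1, hp1, hq1, hp1F, hq1f, hd1⟩, ⟨p2, q2, hp2, hq2, hp2F, hq2f, hd2⟩⟩ :=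
      hP a
    obtain ⟨e1, he1⟩ := same_range hq1 hf hq1f
    obtain ⟨e2, he2⟩ := same_range hq2 hf hq2f
    have hr : range (fun z => k a • p1 z) = range fun z => k b • p2 z := by
      have c1 : range (fun z => k a • p1 z) = F ω := by
        have : range (fun z => k a • p1 z) = (fun x => k a • x) '' range p1 := by
          rw [← range_comp]
          rfl
        rw [this, hp1F, hF, image_image]
        simp
      have c2 : range (fun z => k b • p2 z) = F ω := by
        have : range (fun z => k b • p2 z) = (fun x => k b • x) '' range p2 := by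
          rw [← range_comp]
          rfl
        rw [this, hp2F, hF, image_image]
        simp
      rw [c1, c2]
    obtain ⟨e, he⟩ := same_range ((isometry_smul X (k a)).comp hp1)
      ((isometry_smul X (k b)).comp hp2) hr
    set h : G := (k b)⁻¹ * k a with hh
    have hL : Lam f (n + n) h (e2 * e * e1⁻¹) := by
      intro z
      have c1 : f z = q1 (e1⁻¹ z) := by rw [he1, IsometryEquiv.apply_inv_self]
      have c2 := hd1 (e1⁻¹ z)
      have c3 := hd2 (e (e1⁻¹ z))
      have c4 : h • p1 (e1⁻¹ z) = p2 (e (e1⁻¹ z)) := by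
        have := he (e1⁻¹ z)
        simp only [Function.comp_apply] at this
        rw [hh, mul_smul, this, inv_smul_smul]
      rw [IsometryEquiv.mul_apply, IsometryEquiv.mul_apply, ← he2, c1]
      have c5 := dist_triangle (h • q1 (e1⁻¹ z)) (h • p1 (e1⁻¹ z)) (q2 (e (e1⁻¹ z)))
      rw [dist_smul, c4, dist_comm (q1 (e1⁻¹ z))] at c5
      linarith
    set e' : ℂ ≃ᵢ ℂ := e2 * e * e1⁻¹ with he'
    have h1 : ‖e' a - b‖ ≤ (R + R) + (n + n) := by
      have c1 := hL a
      have c2 : dist (h • f a) (f b) = dist (k a • f a) (k b • f b) := by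
        rw [hh, mul_smul, ← dist_smul (k b), smul_inv_smul]
      have c3 := hR (hk a)
      have c4 := hR (hk b)
      rw [Metric.mem_closedBall] at c3 c4
      have c5 := dist_triangle (k a • f a) (f 0) (k b • f b)
      rw [dist_comm (f 0)] at c5
      have c6 := dist_triangle (f (e' a)) (h • f a) (f b)
      rw [dist_comm (f (e' a)) (h • f a), c2, hf.dist_eq, dist_eq_norm] at c6
      linarith
    refine ⟨h⁻¹, e'⁻¹, hL.inv, ?_⟩
    have c1 : ‖e'⁻¹ 0 - a‖ ≤ dist (e'⁻¹ 0) (e'⁻¹ b) + dist (e'⁻¹ b) a := by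
      rw [← dist_eq_norm]
      exact dist_triangle _ _ _
    have c2 : dist (e'⁻¹ 0) (e'⁻¹ b) = ‖b‖ := by
      rw [e'⁻¹.dist_eq, dist_zero_left]
    have c3 : dist (e'⁻¹ b) a = ‖e' a - b‖ := by
      rw [← e'.dist_eq, IsometryEquiv.apply_inv_self, dist_comm, dist_eq_norm]
    have c4 : ‖b‖ ≤ C := hC ⟨b, hb, rfl⟩
    linarith
  obtain ⟨r, C', hd'⟩ := dense_trans hd
  refine coarse_Z2 hf (fun ρ => ?_) hd'
  refine (ProperlyDiscontinuousSMul.finite_disjoint_inter_image (Γ := G)
    (isCompact_singleton (x := f 0)) (isCompact_closedBall (f 0) ρ)).subset ?_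
  intro g hg
  exact ⟨g • f 0, ⟨f 0, rfl, rfl⟩, hg⟩

end

end Pool.Agent.U541.FM
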